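import Pool.Agent.MP_3ee8cb_gt.DF.RKH
import Pool.Agent.MP_3ee8cb_gt.DF.RKE
import Pool.Agent.MP_3ee8cb_gt.DF.RKEY
import Pool.Agent.MP_3ee8cb_gt.DF.RPOLAR
import Pool.Agent.MP_3ee8cb_gt.DF.REXT
import Pool.Agent.MP_3ee8cb_gt.DF.RKSO
import Pool.Agent.MP_3ee8cb_gt.DF.RLM
import Pool.Agent.MP_3ee8cb_gt.DF.RST
import Pool.Agent.MP_3ee8cb_gt.DF.RSTEP
import Pool.Agent.MP_3ee8cb_gt.DF.RHEAT
import Pool.Agent.MP_3ee8cb_gt.DF.RCV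
import Pool.Agent.MP_3ee8cb_gt.DF.RP12
import Pool.Agent.MP_3ee8cb_gt.DF.RPIS
import Pool.Agent.MP_3ee8cb_gt.DF.RSEM2

/-! The spherical inequality and the choice of the constants. -/

namespace Pool.Agent.MP_3ee8cb_gt.CYF

open DN DF

theorem kso [Dim] : SKSO := by
  have cv := cv_of kH kE
  have qf := qf_of kH kE cv
  have p1 := p1_of kE sPIS
  have p2 := p2_of kH kE qf sPIS
  exact kso_of kH kE (key_of kH kE (lm_of kH kE cv qf p1 p2 (st_of kH kE cv))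
    (step_of kH kE p1 p2) (heat_of kE sSEM2)) (sPOLAR_of kE) (ext_of kH)

/-- Constants that do not depend on the dimension. -/
theorem consts {c K : ℝ} (L : ℝ) (hL : 0 ≤ L) (hc : 0 < c) (hK : 1 ≤ K) :
    ∃ (δ μ : ℝ) (n₀ : ℕ), 0 < δ ∧ δ ≤ 1 ∧ c * δ ≤ 1 / 12 ∧ 0 ≤ μ ∧ ∀ [Dim], n₀ ≤ dm →
      SKS L (1 / (32 * K ^ 2)) μ ∧
      (1 + 4 * K ^ 2) * (32 * dm * (c * δ) ^ 2 + 16 * K ^ 4) ≤ μ * dm := by
  have K0 : 0 < K := by linarith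
  obtain ⟨s, s0, s1, s2⟩ : ∃ s : ℝ, 0 < s ∧ 1400 * s * (L + 6) ^ 2 ≤ 1 ∧
      s ≤ 2 * (1 / (32 * K ^ 2)) := by
    have p : 0 < 1400 * (L + 6) ^ 2 := by positivity
    refine ⟨min (1 / (1400 * (L + 6) ^ 2)) _, ?_, ?_, min_le_right _ _⟩
    · positivity
    · have := (le_div_iff₀ p).1 (min_le_left (1 / (1400 * (L + 6) ^ 2))
        (2 * (1 / (32 * K ^ 2))))
      linarith
  obtain ⟨b, b0, b1⟩ : ∃ b : ℝ, 0 < b ∧ 1280 * b ≤ s := ⟨s / 1280, by positivity, by linarith⟩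
  obtain ⟨k, k0, k1, k2⟩ : ∃ k : ℝ, 0 < k ∧ k ≤ 1 / 12 ∧ (1 + 4 * K ^ 2) * 32 * k ≤ b / 4 := by
    have p : 0 < (1 + 4 * K ^ 2) * 32 := by positivity
    refine ⟨min (1 / 12) (b / 4 / ((1 + 4 * K ^ 2) * 32)), by positivity, min_le_left _ _, ?_⟩
    have := (le_div_iff₀ p).1 (min_le_right (1 / 12) (b / 4 / ((1 + 4 * K ^ 2) * 32)))
    linarith
  obtain ⟨δ, d0, d1, d2⟩ : ∃ δ : ℝ, 0 < δ ∧ δ ≤ 1 ∧ c * δ ≤ k := by
    refine ⟨min 1 (k / c), by positivity, min_le_left _ _, ?_⟩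
    have := (le_div_iff₀ hc).1 (min_le_right 1 (k / c))
    linarith
  obtain ⟨n₀, hn⟩ := exists_nat_ge (max ((b + 4 * (1 / (32 * K ^ 2))) / (b / 2))
    ((1 + 4 * K ^ 2) * (16 * K ^ 4) / (b / 4)))
  refine ⟨δ, b / 2, n₀, d0, d1, d2.trans k1, by positivity, fun h => ?_⟩
  have h1 : (n₀ : ℝ) ≤ dm := by exact_mod_cast h
  have e1 := (div_le_iff₀ (by positivity)).1 (((le_max_left _ _).trans hn).trans h1)
  have e2 := (div_le_iff₀ (by positivity)).1 (((le_max_right _ _).trans hn).trans h1)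
  have c0 : 0 < c * δ := by positivity
  have e3 : (c * δ) ^ 2 ≤ k := by nlinarith
  have e4 := mul_le_mul_of_nonneg_left e3 (by positivity : 0 ≤ (1 + 4 * K ^ 2) * 32)
  have e5 := mul_le_mul_of_nonneg_left (e4.trans k2) (Nat.cast_nonneg (α := ℝ) dm)
  exact ⟨kso _ _ s b b0.le b1 s1 s2 (by linarith), by linarith⟩

end Pool.Agent.MP_3ee8cb_gt.CYF
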