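import Pool.Agent.MP_3ee8cb_gt.CYF.Der
import Pool.Agent.MP_3ee8cb_gt.CYF.Kso
import Pool.Agent.MP_3ee8cb_gt.CYG.Gib
import Pool.Agent.MP_3ee8cb_gt.DF.B73ALG
import Pool.Agent.MP_3ee8cb_gt.DF.RHOL
import Pool.Agent.MP_3ee8cb_gt.CYC.Feet
import Pool.Agent.MP_3ee8cb_gt.CYX.Xi
import Pool.Agent.MP_3ee8cb_gt.CYP.Chart
import Pool.Agent.MP_3ee8cb_gt.CYC.Cen
import Pool.Agent.MP_3ee8cb_gt.CY.Ksl
import Pool.Agent.MP_3ee8cb_gt.DNGA.Pol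
import Pool.Agent.MP_3ee8cb_gt.DN.One

/-! The fibre inequality for a continuous front: the assembly. -/

namespace Pool.Agent.MP_3ee8cb_gt.CYF

open DN DF CYG CYX CYP Set Filter Topology MeasureTheory
open scoped RealInnerProductSpace NNReal

noncomputable section

variable [Dim]

/-- The common hypotheses of the rows. -/
def OnX (c K : ℝ) (P : MF → (V × V → V) → (V → V × V) → ℝ → ℝ → V → (V × V → ℝ × V) → Prop) :
    Prop := ∀ m lg σ a δ o X, m.OK → m.Jac → m.Had lg → 0 < a → 0 ≤ δ → c * δ ≤ 1 / 12 →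
  Fr0 m σ a → XI m lg a δ c K o X → (∀ v, ‖v‖ = 1 → a * ‖lg ((σ v).1, o)‖ ≤ 3 / 2) →
  P m lg σ a δ o X

/-- The local two point bounds. -/
def SLOC (c K : ℝ) (l : ℝ≥0) : Prop := OnX c K fun _ lg σ a _ o X =>
  ∃ s : ℝ≥0, (s : ℝ) ^ 2 ≤ 1 - 1 / (4 * K ^ 2) ∧ Loc K (3 / 2) s l (fun v => (X (σ v)).1)
    (fun v => (X (σ v)).2) fun v => a • lg (o, (σ v).1)

variable {c K : ℝ} {l : ℝ≥0}

theorem dat (loc : SLOC c K l) : OnX c K fun m lg σ a δ o X =>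
    ∃ τ Y G, DatZ K (c * δ) (fun v => (X (σ v)).1) τ (fun v => (X (σ v)).2) Y
      (fun v => a • lg (o, (σ v).1)) G (m.A' σ) (fun v => a • m.B σ v) (Gs m σ a) ∧
      Measurable G ∧ (∀ u, ‖G u‖ ≤ 3 / 2) ∧
      LipschitzWith (2 * K * l + 3 / 2).toNNReal fun x => ‖x‖ • G x := by
  intro m lg σ a δ o X ho hj hl ha δ0 δ1 f x bF
  obtain ⟨s, hs, L⟩ := loc m lg σ a δ o X ho hj hl ha δ0 δ1 f x bF
  obtain ⟨τ, Y, G, C⟩ := L.chart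
  refine ⟨τ, Y, G, ⟨C.cX.continuousOn, fun u hu => (C.rX u hu).2, C.lX, C.eτ, C.eG, C.hτ,
    fun r u hr _ => C.hG r u hr, ⟨s, C.lτ, hs⟩, der_cF hl f o, der_pt hj hl ha f x bF, der_ae f,
    der_mν ho f, fun v g _ => der_gd hl ha x v g, der_der ho hj hl ha f x bF,
    CYC.covZ L.cx (fun r a hr ha => L.hx r a hr.ne' ha) (fun u hu v hv e => ?_)
      fun a ha => (C.lX a ha).1⟩, C.mG, C.bG, C.lG⟩
  rw [← (C.lX u hu).2, ← (C.lX v hv).2]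
  exact congrArg Y e

theorem fib_of {δ μ : ℝ} (hK : 1 ≤ K) (hc : 0 ≤ c) (δ0 : 0 ≤ δ) (δ1 : c * δ ≤ 1 / 12)
    (μ0 : 0 ≤ μ) (xi : ∀ (m : MF) lg a, m.OK → m.Jac → m.Had lg → 0 < a → m.Up 0 → m.Up (a ^ 2) →
      m.Dn ((1 + δ) * a ^ 2) → ∀ o, ∃ X, XI m lg a δ c K o X)
    (loc : SLOC c K l)
    (ks : SKS (2 * K * l + 3 / 2) (1 / (32 * K ^ 2)) μ)
    (hμ : (1 + 4 * K ^ 2) * (32 * dm * (c * δ) ^ 2 + 16 * K ^ 4) ≤ μ * dm) : SFIB δ := by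
  intro m lg σ a ho hj hl ha u0 ua dn f hd
  have k0 : 0 ≤ c * δ := mul_nonneg hc δ0
  have sub : {v : V | ‖v‖ = 1} ⊆ {v | v ≠ 0} := fun v hv => DNWI.ne_of_norm hv
  have hp : ∀ v, 0 ≤ nu (m.A' σ) (fun v => a • m.B σ v) v := fun v =>
    mul_nonneg (abs_nonneg _) (Real.exp_pos _).le
  have hν : Integrable
      (fun v : Metric.sphere (0 : V) 1 => nu (m.A' σ) (fun v => a • m.B σ v) v) sm := by
    obtain ⟨v₀, h₀⟩ : ∃ v₀ : V, ‖v₀‖ = 1 := ⟨EuclideanSpace.single 0 1, by simp⟩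
    obtain ⟨X, x⟩ := xi m lg a ho hj hl ha u0 ua dn (σ v₀).1
    obtain ⟨τ, Y, G, D, -⟩ := dat loc m lg σ a δ _ X ho hj hl ha δ0 δ1 f x
      fun v hv => hd v v₀ hv h₀
    exact sNU_of kH (alg_of' kH) _ _ _ _ _ _ _ _ _ _ _ hK k0 δ1 D
  obtain ⟨o, o1, o2⟩ := CYC.cenZ (D := 3 / 2 / a) ho hj hl (f.c0.mono sub).fst (fun v _ => hp v) hν
    fun v v' hv hv' => by
      rw [le_div_iff₀ ha, mul_comm]
      exact hd v v' hv hv'
  have bF : ∀ v, ‖v‖ = 1 → a * ‖lg ((σ v).1, o)‖ ≤ 3 / 2 := fun v hv => by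
    have k := o1 v hv
    rwa [le_div_iff₀ ha, mul_comm, DNWI.lg_symm hj hl] at k
  obtain ⟨X, x⟩ := xi m lg a ho hj hl ha u0 ua dn o
  obtain ⟨τ, Y, G, D, mG, bG, lG⟩ := dat loc m lg σ a δ o X ho hj hl ha δ0 δ1 f x bF
  have K0 : 0 < K := by linarith
  obtain ⟨w, -, iw, hw⟩ := CY.ksl (Real.coe_toNNReal _ (by positivity)).le ks (by positivity) μ0
    D.hG (fun u _ => bG u) lG
  have g := sGIBZ_of kH (alg_of' kH) sHOL K (c * δ) μ _ _ _ _ _ _ _ _ _ _ w hK k0 δ1 hμ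
    (by positivity) le_rfl D mG iw hw (by
    have k := mul_le_mul_of_nonneg_left (o2 (a⁻¹ • w)) (sq_nonneg a)
    rw [← sph_mul, ← sph_mul] at k
    refine (sph_congr fun v _ => ?_).trans_le (k.trans_eq (sph_congr fun v _ => ?_))
    · rw [norm_smul, Real.norm_eq_abs, mul_pow, sq_abs]
      ring
    · have e : a • lg (o, (σ v).1) - w = a • (lg (o, (σ v).1) - a⁻¹ • w) := by
        rw [smul_sub, smul_inv_smul₀ ha.ne']
      rw [e, norm_smul, Real.norm_eq_abs, mul_pow, sq_abs]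
      ring)
  obtain ⟨r1, r2⟩ := CYC.feet (fun v _ => hp v) hν (f.gd.mono fun v hv =>
    mul_pos (abs_pos.2 hv.2.1) (Real.exp_pos _)) D.cF g
  refine ⟨r1, fun e v v' hv hv' => ?_⟩
  have z : ∀ v, ‖v‖ = 1 → (σ v).1 = (m.Z 1 (o, 0)).1 := fun v hv => by
    rw [← hl.ex o (σ v).1, (smul_eq_zero.1 (r2 e v hv)).resolve_left ha.ne']
  rw [z v hv, z v' hv']

end

/-- The fibre inequality in high dimensions. -/
theorem fib_high (loc : ∀ c K : ℝ, 0 < c → 1 ≤ K → ∃ l, ∀ [Dim], SLOC c K l) :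
    ∃ (δ : ℝ) (n₀ : ℕ), 0 < δ ∧ ∀ [Dim], n₀ ≤ dm → SFIB δ := by
  obtain ⟨G, hG⟩ : ∃ G, G = Real.exp 2 := ⟨_, rfl⟩
  have G1 : 1 ≤ G := hG ▸ Real.one_le_exp zero_le_two
  have hc : 0 < 4 * G * (G * (1 + 3 * G)) := by positivity
  have hK : 1 ≤ G * (1 + 3 * G) := by nlinarith
  obtain ⟨l, loc⟩ := loc _ _ hc hK
  obtain ⟨δ, μ, n₀, d0, d1, d2, μ0, h⟩ :=
    consts (2 * (G * (1 + 3 * G)) * l + 3 / 2) (by positivity) hc hK
  exact ⟨δ, n₀, d0, fun hn => fib_of hK hc.le d0.le d2 μ0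
    (fun m lg a ho hj hl ha u0 ua dn o => xi_of sPOL hG d0.le d1 ho hj hl ha u0 ua dn o) loc
    (h hn).1 (h hn).2⟩

end Pool.Agent.MP_3ee8cb_gt.CYF
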