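import Pool.Agent.MP_3ee8cb_gt.CYO.Spec

/-! The fibre inequality for a continuous front: the statement. -/

namespace Pool.Agent.MP_3ee8cb_gt.CYF

open DN Set Filter Topology MeasureTheory
open scoped RealInnerProductSpace

noncomputable section

variable [Dim]

/-- A continuous flip invariant front with the two point inequalities. -/
structure Fr0 (m : MF) (σ : V → V × V) (a : ℝ) : Prop where
  c0 : ContinuousOn σ {q | q ≠ 0}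
  hom : ∀ (r : ℝ) q, r ≠ 0 → q ≠ 0 → σ (r • q) = ((σ q).1, r • (σ q).2)
  norm : ∀ q, q ≠ 0 → ‖(σ q).2‖ = ‖q‖
  two : ∀ v : V, ‖v‖ = 1 → ∃ c : ℝ, 0 < c ∧ ∀ ε : ℝ, 0 < ε → ∃ C : ℝ,
    ∀ᶠ p : V × V in 𝓝 (v, v), ‖p.1‖ = 1 → ‖p.2‖ = 1 →
      c * ‖p.2 - p.1‖ ^ 2 + a ^ 2 * ‖m.hor (σ v) (σ p.2 - σ p.1)‖ ^ 2 ≤
        (1 + ε) * ‖m.ver (σ v) (σ p.2 - σ p.1)‖ ^ 2 ∧
      |⟪(σ p.1).2, m.hor (σ p.1) (σ p.2 - σ p.1)⟫| ≤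
        C * (‖p.2 - p.1‖ ^ 2 + ‖σ p.2 - σ p.1‖ ^ 2)
  gd : ∀ᵐ v : Metric.sphere (0 : V) 1 ∂(volume : Measure V).toSphere,
    DifferentiableAt ℝ σ v ∧ (m.A' σ v).det ≠ 0 ∧ a * ‖m.B σ v‖ ≤ 1 ∧
      ∀ e, ⟪(σ v).2, m.A σ v e⟫ = 0

/-- The fibre inequality and its case of equality. -/
def SFIB (δ : ℝ) : Prop := ∀ (m : MF) (lg : V × V → V) (σ : V → V × V) (a : ℝ), m.OK → m.Jac →
  m.Had lg → 0 < a → m.Up 0 → m.Up (a ^ 2) → m.Dn ((1 + δ) * a ^ 2) → Fr0 m σ a →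
  (∀ v v', ‖v‖ = 1 → ‖v'‖ = 1 → a * ‖lg ((σ v).1, (σ v').1)‖ ≤ 3 / 2) →
  CYO.ms m σ a ≤ (volume : Measure V).toSphere univ ∧
    (CYO.ms m σ a = (volume : Measure V).toSphere univ →
      ∀ v v', ‖v‖ = 1 → ‖v'‖ = 1 → (σ v).1 = (σ v').1)

end

end Pool.Agent.MP_3ee8cb_gt.CYF
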