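import Pool.Agent.MP_3ee8cb_gt.CYF.Der
import Pool.Agent.MP_3ee8cb_gt.CYP.Chart
import Pool.Agent.MP_3ee8cb_gt.CYC.Cen

/-! The fibre data of a transported continuous front. -/

namespace Pool.Agent.MP_3ee8cb_gt.CYF

open DN DF Set Filter Topology MeasureTheory
open scoped RealInnerProductSpace NNReal

noncomputable section

variable [Dim]

variable {m : MF} {lg : V × V → V} {σ : V → V × V} {a δ c K D : ℝ} {o : V} {X : V × V → ℝ × V}
  {s l : ℝ≥0}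

theorem dat_hom (hf : Fr0 m σ a) (hx : CYX.XI m lg a δ c K o X) (r : ℝ) (v : V) (hr : r ≠ 0)
    (hv : v ≠ 0) : X (σ (r • v)) = r • X (σ v) := by
  rw [hf.hom r v hr hv, hx.lin]

theorem dat_c (hf : Fr0 m σ a) (hx : CYX.XI m lg a δ c K o X) :
    ContinuousOn (fun v => X (σ v)) {v | v ≠ 0} :=
  hx.c1.continuous.comp_continuousOn hf.c0

/-- The local data from the two point bounds. -/
theorem dat_loc (hj : m.Jac) (hl : m.Had lg) (ha : 0 < a) (hf : Fr0 m σ a)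
    (hx : CYX.XI m lg a δ c K o X) (bF : ∀ v, ‖v‖ = 1 → a * ‖lg ((σ v).1, o)‖ ≤ 3 / 2)
    (two : ∀ v : V, ‖v‖ = 1 → ∀ᶠ p : V × V in 𝓝 (v, v),
      |(X (σ p.1)).1 - (X (σ p.2)).1| ≤ s * ‖(X (σ p.1)).2 - (X (σ p.2)).2‖ ∧
      ‖a • lg (o, (σ p.1).1) - a • lg (o, (σ p.2).1)‖ ≤ l * ‖(X (σ p.1)).2 - (X (σ p.2)).2‖ ∧
      ((X (σ p.1)).2 = (X (σ p.2)).2 → p.1 = p.2)) :
    CYP.Loc K (3 / 2) s l (fun v => (X (σ v)).1) (fun v => (X (σ v)).2)
      fun v => a • lg (o, (σ v).1) where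
  cx := (dat_c hf hx).snd
  cF := (hl.c1.continuous.comp_continuousOn (continuousOn_const.prodMk hf.c0.fst)).const_smul a
  ht r v hr hv := congrArg Prod.fst (dat_hom hf hx r v hr hv)
  hx r v hr hv := congrArg Prod.snd (dat_hom hf hx r v hr hv)
  hF r v hr hv := by rw [hf.hom r v hr hv]
  bd v hv := (der_pt hj hl ha hf hx bF v hv).2
  two := two

/-- The data of the fibre inequality. -/
theorem dat_Z (ho : m.OK) (hj : m.Jac) (hl : m.Had lg) (ha : 0 < a) (hf : Fr0 m σ a)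
    (hx : CYX.XI m lg a δ c K o X) (bF : ∀ v, ‖v‖ = 1 → a * ‖lg ((σ v).1, o)‖ ≤ 3 / 2)
    (hs : (s : ℝ) ^ 2 ≤ 1 - 1 / (4 * K ^ 2)) {τ : V → ℝ} {Y G : V → V}
    (hc : CYP.Chart K D s l (fun v => (X (σ v)).1) τ (fun v => (X (σ v)).2) Y
      (fun v => a • lg (o, (σ v).1)) G) :
    CYG.DatZ K (c * δ) (fun v => (X (σ v)).1) τ (fun v => (X (σ v)).2) Y
      (fun v => a • lg (o, (σ v).1)) G (m.A' σ) (fun v => a • m.B σ v) (Gs m σ a) where
  cX := hc.cX.continuousOn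
  rX u hu := (hc.rX u hu).2
  lX := hc.lX
  eτ := hc.eτ
  eG := hc.eG
  hτ := hc.hτ
  hG r u hr _ := hc.hG r u hr
  lτ := ⟨s, hc.lτ, hs⟩
  cF := der_cF hl hf o
  pt := der_pt hj hl ha hf hx bF
  ae := der_ae hf
  mν := der_mν ho hf
  gd v hg _ := der_gd hl ha hx v hg
  der := der_der ho hj hl ha hf hx bF
  cov := CYC.covZ (dat_c hf hx).snd
    (fun r v hr hv => congrArg Prod.snd (dat_hom hf hx r v hr.ne' hv))
    (fun v hv w hw e => (hc.lX v hv).2.symm.trans ((congrArg Y e).trans (hc.lX w hw).2))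
    fun v hv => (hc.lX v hv).1

end

end Pool.Agent.MP_3ee8cb_gt.CYF
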