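import Pool.Agent.MP_3ee8cb_gt.CYF.Spec
import Pool.Agent.MP_3ee8cb_gt.CYG.Spec
import Pool.Agent.MP_3ee8cb_gt.CYX.Xi
import Pool.Agent.MP_3ee8cb_gt.CYO.Meas
import Pool.Agent.MP_3ee8cb_gt.DF.RDER
import Pool.Agent.MP_3ee8cb_gt.DF.RGEO

/-! The pointwise fields of the fibre data, for a transported continuous front. -/

namespace Pool.Agent.MP_3ee8cb_gt.CYF

open DN DF Set MeasureTheory
open scoped RealInnerProductSpace

noncomputable section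

variable [Dim]

/-- The good directions. -/
def Gs (m : MF) (σ : V → V × V) (a : ℝ) : Set V :=
  {v | DifferentiableAt ℝ σ v ∧ (m.A' σ v).det ≠ 0 ∧ a * ‖m.B σ v‖ ≤ 1 ∧
    ∀ e, ⟪(σ v).2, m.A σ v e⟫ = 0}

variable {m : MF} {lg : V × V → V} {σ : V → V × V} {a δ c K : ℝ} {o : V} {X : V × V → ℝ × V}

theorem der_ae (hf : Fr0 m σ a) : ∀ᵐ v : Metric.sphere (0 : V) 1 ∂CYG.sm, (v : V) ∈ Gs m σ a :=
  hf.gd

theorem der_nF (hj : m.Jac) (hl : m.Had lg) (ha : 0 < a) (y : V) :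
    ‖a • lg (o, y)‖ = a * ‖lg (y, o)‖ := by
  rw [norm_smul, Real.norm_eq_abs, abs_of_pos ha, DNWI.lg_symm hj hl]

theorem der_cF (hl : m.Had lg) (hf : Fr0 m σ a) (o : V) :
    ContinuousOn (fun v => a • lg (o, (σ v).1)) {v | ‖v‖ = 1} :=
  (hl.c1.continuous.comp_continuousOn (continuousOn_const.prodMk
    (hf.c0.mono fun _ hv => DNWI.ne_of_norm hv).fst)).const_smul a

theorem der_pt (hj : m.Jac) (hl : m.Had lg) (ha : 0 < a) (hf : Fr0 m σ a)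
    (hx : CYX.XI m lg a δ c K o X) (bF : ∀ v, ‖v‖ = 1 → a * ‖lg ((σ v).1, o)‖ ≤ 3 / 2) (v : V)
    (hv : ‖v‖ = 1) : ‖(X (σ v)).2‖ ^ 2 - (X (σ v)).1 ^ 2 = 1 ∧
      ‖a • lg (o, (σ v).1)‖ ≤ 3 / 2 ∧ ‖(X (σ v)).2‖ ≤ K := by
  have n1 : ‖(σ v).2‖ = 1 := (hf.norm v (DNWI.ne_of_norm hv)).trans hv
  exact ⟨by rw [hx.nm, n1, one_pow], (der_nF hj hl ha _).trans_le (bF v hv),
    (hx.est _ n1 (bF v hv)).1⟩

theorem der_nB (ha : 0 < a) {v : V} (hv : v ∈ Gs m σ a) : ‖a • m.B σ v‖ ≤ 1 := by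
  rw [norm_smul, Real.norm_eq_abs, abs_of_pos ha]
  exact hv.2.2.1

theorem der_gd (hl : m.Had lg) (ha : 0 < a) (hx : CYX.XI m lg a δ c K o X) (v : V)
    (hv : v ∈ Gs m σ a) : DifferentiableAt ℝ (fun v => (X (σ v)).2) v ∧
      DifferentiableAt ℝ (fun v => (X (σ v)).1) v ∧
      DifferentiableAt ℝ (fun v => a • lg (o, (σ v).1)) v ∧ (m.A' σ v).det ≠ 0 ∧
      ‖a • m.B σ v‖ ≤ 1 := by
  have d := (hx.c1.differentiable one_ne_zero (σ v)).comp v hv.1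
  have df := HasFDerivAt.comp (f := fun x => (σ x).1) v (DER.dif hl o (σ v).1)
    hv.1.hasFDerivAt.fst
  exact ⟨d.snd, d.fst, (df.fun_const_smul a).differentiableAt, hv.2.1, der_nB ha hv⟩

theorem der_der (ho : m.OK) (hj : m.Jac) (hl : m.Had lg) (ha : 0 < a) (hf : Fr0 m σ a)
    (hx : CYX.XI m lg a δ c K o X) (bF : ∀ v, ‖v‖ = 1 → a * ‖lg ((σ v).1, o)‖ ≤ 3 / 2) (v : V)
    (hg : v ∈ Gs m σ a) (hv : ‖v‖ = 1) (e : V) :
    ‖fderiv ℝ (fun v => a • lg (o, (σ v).1)) v e‖ ≤ ‖(a • m.B σ v) (m.A' σ v e)‖ ∧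
    ‖fderiv ℝ (fun v => (X (σ v)).2) v e‖ ≤ K * ‖m.A' σ v e‖ ∧
    |fderiv ℝ (fun v => (X (σ v)).1) v e| ≤ K * ‖a • lg (o, (σ v).1)‖ * ‖m.A' σ v e‖ ∧
    ‖m.A' σ v e‖ ^ 2 - c * δ * ‖a • lg (o, (σ v).1)‖ * ‖m.A' σ v e‖ *
        ‖(a • m.B σ v) (m.A' σ v e)‖ ≤
      ‖fderiv ℝ (fun v => (X (σ v)).2) v e‖ ^ 2 - fderiv ℝ (fun v => (X (σ v)).1) v e ^ 2 := by
  have n1 : ‖(σ v).2‖ = 1 := (hf.norm v (DNWI.ne_of_norm hv)).trans hv
  have d := (hx.c1.differentiable one_ne_zero (σ v)).hasFDerivAt.comp v hg.1.hasFDerivAt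
  have e2 : fderiv ℝ (fun v => (X (σ v)).2) v e = (fderiv ℝ X (σ v) (fderiv ℝ σ v e)).2 :=
    congrArg (fun L : V →L[ℝ] V => L e) d.snd.fderiv
  have e1 : fderiv ℝ (fun v => (X (σ v)).1) v e = (fderiv ℝ X (σ v) (fderiv ℝ σ v e)).1 :=
    congrArg (fun L : V →L[ℝ] ℝ => L e) d.fst.fderiv
  have df := HasFDerivAt.comp (f := fun x => (σ x).1) v (DER.dif hl o (σ v).1)
    hg.1.hasFDerivAt.fst
  have e3 : fderiv ℝ (fun v => a • lg (o, (σ v).1)) v e =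
      a • fderiv ℝ (fun z => lg (o, z)) (σ v).1 (fderiv ℝ σ v e).1 :=
    congrArg (fun L : V →L[ℝ] V => L e) (df.fun_const_smul a).fderiv
  have eB : ‖(a • m.B σ v) (m.A' σ v e)‖ = a * ‖m.A σ v e‖ := by
    rw [smul_apply, B_app hg.2.1, norm_smul, Real.norm_eq_abs, abs_of_pos ha]
  have le : a * ‖m.A σ v e‖ ≤ ‖m.A' σ v e‖ := by
    rw [← eB]
    refine ((a • m.B σ v).le_opNorm _).trans ?_
    nlinarith [der_nB ha hg, norm_nonneg (m.A' σ v e)]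
  obtain ⟨β, b0, b1, hβ⟩ := GEO.ratio (by positivity) le
  obtain ⟨k1, k2, k3⟩ := (hx.est _ n1 (bF v hv)).2 (fderiv ℝ σ v e) β b0 b1 (hg.2.2.2 e) hβ.ge
  rw [e1, e2, e3, eB, der_nF hj hl ha]
  refine ⟨?_, k1, k2, le_of_eq_of_le ?_ k3⟩
  · rw [norm_smul, Real.norm_eq_abs, abs_of_pos ha]
    exact mul_le_mul_of_nonneg_left (DER.le ho hj hl o _ _) ha.le
  · rw [← hβ]
    change _ = _ * ‖m.A' σ v e‖ ^ 2
    ring

/-- The weight has a measurable version. -/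
theorem der_m (ho : m.OK) (hc : ContinuousOn σ {q | q ≠ 0}) (a : ℝ) :
    Measurable fun v : Metric.sphere (0 : V) 1 => CYO.wt m σ a v := by
  have c : Continuous fun v : Metric.sphere (0 : V) 1 => σ v :=
    hc.comp_continuous continuous_subtype_val fun v =>
      DNWI.ne_of_norm (mem_sphere_zero_iff_norm.1 v.2)
  have cp : Continuous fun p : (V × V) × (V →L[ℝ] V × V) =>
      ((m.hor p.1).comp p.2, (m.ver p.1).comp p.2) :=
    (((SC.c_hor ho).comp continuous_fst).clm_comp continuous_snd).prodMk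
      (((SC.c_ver ho).comp continuous_fst).clm_comp continuous_snd)
  exact (CYO.m_Pw a).comp (cp.measurable.comp (c.measurable.prodMk
    ((measurable_fderiv ℝ σ).comp measurable_subtype_coe)))

theorem der_mν (ho : m.OK) (hf : Fr0 m σ a) : AEStronglyMeasurable
    (fun v : Metric.sphere (0 : V) 1 => CYG.nu (m.A' σ) (fun v => a • m.B σ v) v) CYG.sm :=
  (der_m ho hf.c0 a).aestronglyMeasurable

end

end Pool.Agent.MP_3ee8cb_gt.CYF
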