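import Pool.Agent.MP_3ee8cb_gt.CYF.Link
import Pool.Agent.MP_3ee8cb_gt.CYX.Two

/-! The fibre inequality for a continuous front in high dimensions. -/

namespace Pool.Agent.MP_3ee8cb_gt.CYF

open DN

theorem sLOC [Dim] {c K : ℝ} (hc : 0 < c) (hK : 1 ≤ K) : SLOC c K 2 := by
  intro m lg σ a δ o X ho hj hl ha δ0 δ1 f x bF
  have p : 0 ≤ 1 - 1 / (4 * K ^ 2) := by
    rw [sub_nonneg, div_le_one (by positivity)]
    nlinarith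
  refine ⟨⟨√(1 - 1 / (4 * K ^ 2)), Real.sqrt_nonneg _⟩, (Real.sq_sqrt p).le,
    CYX.loc ho hj hl ha x hK (mul_nonneg hc.le δ0) δ1 f bF (fun v hv => ?_) (Real.sq_sqrt p).ge⟩
  rw [DNWI.lg_symm hj hl]
  exact bF v hv

theorem fib : ∃ (δ : ℝ) (n₀ : ℕ), 0 < δ ∧ ∀ [Dim], n₀ ≤ dm → SFIB δ :=
  fib_high fun _ _ hc hK => ⟨2, sLOC hc hK⟩

end Pool.Agent.MP_3ee8cb_gt.CYF
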