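import Pool.Agent.MP_3ee8cb_gt.CYF.Dat
import Pool.Agent.MP_3ee8cb_gt.CYC.Feet
import Pool.Agent.MP_3ee8cb_gt.CY.Ksl
import Pool.Agent.MP_3ee8cb_gt.DF.Fin

/-! The fibre inequality for a continuous front, from the two point bounds. -/

namespace Pool.Agent.MP_3ee8cb_gt.CYF

open DN DF Set Filter Topology MeasureTheory
open scoped RealInnerProductSpace NNReal

noncomputable section

section

variable [Dim]

/-- The transport exists. -/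
def SXI (c K : ℝ) : Prop := ∀ (δ a : ℝ) (m : MF) (lg : V × V → V) (o : V), 0 ≤ δ → δ ≤ 1 → m.OK →
  m.Jac → m.Had lg → 0 < a → m.Up 0 → m.Up (a ^ 2) → m.Dn ((1 + δ) * a ^ 2) →
  ∃ X, CYX.XI m lg a δ c K o X

/-- The two point bounds for the transported front. -/
def STWO (c K : ℝ) (l : ℝ≥0) : Prop := ∀ (δ a : ℝ) (m : MF) (lg : V × V → V) (σ : V → V × V)
  (o : V) (X : V × V → ℝ × V), 0 ≤ δ → c * δ ≤ 1 / 12 → m.OK → m.Jac → m.Had lg → 0 < a →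
  Fr0 m σ a → CYX.XI m lg a δ c K o X → (∀ v, ‖v‖ = 1 → a * ‖lg ((σ v).1, o)‖ ≤ 3 / 2) →
  ∃ s : ℝ≥0, (s : ℝ) ^ 2 ≤ 1 - 1 / (4 * K ^ 2) ∧ CYP.Loc K (3 / 2) s l (fun v => (X (σ v)).1)
    (fun v => (X (σ v)).2) fun v => a • lg (o, (σ v).1)

theorem sfib_of {c K δ μ κ L : ℝ} {l : ℝ≥0} (xi : SXI c K) (two : STWO c K l) (nu : CYG.SNU)
    (gib : CYG.SGIBZ) (hc : 0 ≤ c) (hK : 1 ≤ K) (d0 : 0 ≤ δ) (d1 : δ ≤ 1) (d2 : c * δ ≤ 1 / 12)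
    (hμ : (1 + 4 * K ^ 2) * (32 * dm * (c * δ) ^ 2 + 16 * K ^ 4) ≤ μ * dm) (m0 : 0 ≤ μ)
    (k0 : 0 ≤ κ) (k1 : κ ≤ 1 / (32 * K ^ 2)) (hL : 2 * K * l + 3 / 2 ≤ L) (ks : SKS L κ μ) :
    SFIB δ := by
  intro m lg σ a ho hj hl ha u0 u1 dn hf hd
  have e0 : 0 ≤ c * δ := mul_nonneg hc d0
  have dat : ∀ o, (∀ v, ‖v‖ = 1 → a * ‖lg ((σ v).1, o)‖ ≤ 3 / 2) → ∃ t τ ξ Y G s,
      CYG.DatZ K (c * δ) t τ ξ Y (fun v => a • lg (o, (σ v).1)) G (m.A' σ)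
        (fun v => a • m.B σ v) (Gs m σ a) ∧
      CYP.Chart K (3 / 2) s l t τ ξ Y (fun v => a • lg (o, (σ v).1)) G := fun o bF => by
    obtain ⟨X, hx⟩ := xi δ a m lg o d0 d1 ho hj hl ha u0 u1 dn
    obtain ⟨s, hs, loc⟩ := two δ a m lg σ o X d0 d2 ho hj hl ha hf hx bF
    obtain ⟨τ, Y, G, ch⟩ := loc.chart
    exact ⟨_, τ, _, Y, G, s, dat_Z ho hj hl ha hf hx bF hs ch, ch⟩
  have np : ∀ v, 0 ≤ CYG.nu (m.A' σ) (fun v => a • m.B σ v) v := fun v =>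
    mul_nonneg (abs_nonneg _) (Real.exp_pos _).le
  obtain ⟨v₀, h₀⟩ : ∃ v₀ : V, ‖v₀‖ = 1 := ⟨EuclideanSpace.single 0 1, by simp⟩
  obtain ⟨t₀, τ₀, ξ₀, Y₀, G₀, -, z₀, -⟩ := dat (σ v₀).1 fun v hv => hd v v₀ hv h₀
  have iν := nu _ _ _ _ _ _ _ _ _ _ _ hK e0 d2 z₀
  obtain ⟨o, o1, o2⟩ := CYC.cenZ ho hj hl (y := fun v => (σ v).1) (D := 3 / 2 / a)
    (hf.c0.mono fun _ hv => DNWI.ne_of_norm hv).fst (fun v _ => np v) iν fun v v' hv hv' => by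
      rw [le_div_iff₀ ha, mul_comm]
      exact hd v v' hv hv'
  obtain ⟨t, τ, ξ, Y, G, s, z, ch⟩ := dat o fun v hv => by
    have k := o1 v hv
    rwa [le_div_iff₀ ha, mul_comm, DNWI.lg_symm hj hl] at k
  obtain ⟨w, -, i2, s2⟩ := CY.ksl (L₀ := (2 * K * l + 3 / 2).toNNReal) (by
    rwa [Real.coe_toNNReal _ (by positivity)]) ks k0 m0 (fun r u hr _ => ch.hG r u hr)
    (fun u _ => ch.bG u) ch.lG
  have key := gib _ _ μ κ _ _ _ _ _ _ _ _ _ w hK e0 d2 hμ k0 k1 z ch.mG i2 s2 (by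
    have k := mul_le_mul_of_nonneg_left (o2 (a⁻¹ • w)) (sq_nonneg a)
    rw [← sph_mul, ← sph_mul] at k
    refine (sph_congr fun v _ => ?_).trans_le (k.trans_eq (sph_congr fun v _ => ?_))
    · rw [norm_smul, Real.norm_eq_abs, mul_pow, sq_abs]
      ring
    · have e : a • lg (o, (σ v).1) - w = a • (lg (o, (σ v).1) - a⁻¹ • w) := by
        rw [smul_sub, smul_inv_smul₀ ha.ne']
      rw [e, norm_smul, Real.norm_eq_abs, mul_pow, sq_abs]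
      ring)
  obtain ⟨f1, f2⟩ := CYC.feet (fun v _ => np v) iν (hf.gd.mono fun v hv =>
    mul_pos (abs_pos.2 hv.2.1) (Real.exp_pos _)) z.cF key
  refine ⟨f1, fun e v v' hv hv' => ?_⟩
  have k : ∀ v, ‖v‖ = 1 → (σ v).1 = (m.Z 1 (o, 0)).1 := fun v hv => by
    rw [← hl.ex o (σ v).1, (smul_eq_zero.1 (f2 e v hv)).resolve_left ha.ne']
  rw [k v hv, k v' hv']

end

/-- The fibre inequality in high dimensions. -/
theorem sfib_high {c K : ℝ} {l : ℝ≥0} (hc : 0 < c) (hK : 1 ≤ K) (xi : ∀ [Dim], SXI c K)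
    (two : ∀ [Dim], STWO c K l) (nu : ∀ [Dim], CYG.SNU) (gib : ∀ [Dim], CYG.SGIBZ)
    (kso : ∀ [Dim], SKSO) : ∃ (δ : ℝ) (n₀ : ℕ), 0 < δ ∧ ∀ [Dim], n₀ ≤ dm → SFIB δ := by
  obtain ⟨J, hJ⟩ : ∃ J : ℝ, J = K * l + 2 * K := ⟨_, rfl⟩
  have l0 : 0 ≤ K * l := by positivity
  have j2 : 2 * K ≤ J := by linarith
  obtain ⟨δ, s, b, n₀, d0, d1, d2, b0, b1, s1, s2, h⟩ := consts hc (by linarith : 1 ≤ J)
  have q2 : (2 * K) ^ 2 ≤ J ^ 2 := pow_le_pow_left₀ (by linarith) j2 2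
  have q4 : (2 * K) ^ 4 ≤ J ^ 4 := pow_le_pow_left₀ (by linarith) j2 4
  have K2 : 0 < K ^ 2 := by positivity
  have K4 : 0 < K ^ 4 := by positivity
  refine ⟨δ, n₀, d0, fun hn => sfib_of xi two nu gib hc.le hK d0.le d1 d2 (le_trans ?_ (h _ hn).2)
    (by positivity) (by positivity) ?_ (by linarith) (kso _ _ s b b0 b1 s1 s2 (h _ hn).1)⟩
  · exact mul_le_mul (by nlinarith) (by nlinarith) (by positivity) (by positivity)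
  · exact one_div_le_one_div_of_le (by positivity) (by nlinarith)

end

end Pool.Agent.MP_3ee8cb_gt.CYF
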