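import Pool.Agent.MP_3ee8cb_gt.CYF.Spec
import Pool.Agent.MP_3ee8cb_gt.CYO.Ric
import Pool.Agent.MP_3ee8cb_gt.CY.Int

/-! Almost every fibre of a continuous conjugacy is a front. -/

namespace Pool.Agent.MP_3ee8cb_gt.CYF

open DN CYO Set Filter Topology MeasureTheory
open scoped RealInnerProductSpace

variable [Dim]

/-- The two point inequalities at time zero. -/
def Lip0 (m m' : MF) (φ : V × V → V × V) (a : ℝ) : Prop := ∀ z₀ : V × V, ‖z₀.2‖ = 1 →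
  ∃ c, 0 < c ∧ ∀ ε : ℝ, 0 < ε → ∃ C : ℝ,
    ∀ᶠ p in 𝓝[{p : (V × V) × V × V | ‖p.1.2‖ = 1 ∧ ‖p.2.2‖ = 1}] (z₀, z₀),
      c * ‖p.2.2 - p.1.2‖ ^ 2 + a ^ 2 * ‖m'.hor (φ z₀) (φ p.2 - φ p.1)‖ ^ 2 ≤
        (1 + ε) * ‖m'.ver (φ z₀) (φ p.2 - φ p.1)‖ ^ 2 + C * ‖p.2.1 - p.1.1‖ ^ 2 ∧
      |⟪(φ p.1).2, m'.hor (φ p.1) (φ p.2 - φ p.1)⟫ - ⟪p.1.2, m.hor p.1 (p.2 - p.1)⟫| ≤
        C * (‖p.2 - p.1‖ ^ 2 + ‖φ p.2 - φ p.1‖ ^ 2)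

/-- From all times to time zero. -/
theorem lip0_of {m m' : MF} {φ : V × V → V × V} {a : ℝ} (o' : m'.OK)
    (h : ∀ z₀ : V × V, ‖z₀.2‖ = 1 → ∃ c, 0 < c ∧ ∀ t ε : ℝ, 0 < ε → ∃ C : ℝ,
      ∀ᶠ p in 𝓝[{p : (V × V) × V × V | ‖p.1.2‖ = 1 ∧ ‖p.2.2‖ = 1}] (z₀, z₀),
        c * ‖p.2.2 - p.1.2‖ ^ 2 + a ^ 2 *
            ‖m'.hor (m'.Z t (φ z₀)) (m'.Z t (φ p.2) - m'.Z t (φ p.1))‖ ^ 2 ≤
          (1 + ε) * ‖m'.ver (m'.Z t (φ z₀)) (m'.Z t (φ p.2) - m'.Z t (φ p.1))‖ ^ 2 +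
            C * ‖p.2.1 - p.1.1‖ ^ 2 ∧
        |⟪(m'.Z t (φ p.1)).2, m'.hor (m'.Z t (φ p.1)) (m'.Z t (φ p.2) - m'.Z t (φ p.1))⟫ -
            ⟪p.1.2, m.hor p.1 (p.2 - p.1)⟫| ≤
          C * (‖p.2 - p.1‖ ^ 2 + ‖m'.Z t (φ p.2) - m'.Z t (φ p.1)‖ ^ 2)) :
    Lip0 m m' φ a := fun z₀ hz => by
  obtain ⟨c, c0, k⟩ := h z₀ hz
  refine ⟨c, c0, fun ε ε0 => ?_⟩
  obtain ⟨C, k⟩ := k 0 ε ε0
  simp only [o'.zero] at k
  exact ⟨C, k⟩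

/-- One fibre. -/
theorem fr0_of {m m' : MF} {φ : V × V → V × V} {a : ℝ} (o : m.OK) (o' : m'.OK)
    (cf : C0F m m' φ) (fl : ∀ x v, v ≠ 0 → φ (x, -v) = ((φ (x, v)).1, -(φ (x, v)).2))
    (ha : 0 < a) (lp : Lip0 m m' φ a) (x : V)
    (gd : ∀ᵐ v : Metric.sphere (0 : V) 1 ∂(volume : Measure V).toSphere, Gd m m' φ a (x, v)) :
    Fr0 m' (fr φ x) a := by
  refine ⟨cf.cont.comp (by fun_prop) fun q hq => hq, fun r q r0 q0 => ?_,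
    fun q q0 => cf.norm (x, q) q0, fun v hv => ?_, gd.mono fun v g => ?_⟩
  · rcases lt_or_gt_of_ne r0 with h | h
    · have e : r • q = (-r) • (-q) := by simp
      unfold fr
      rw [e, cf.hom (-r) x (-q) (by linarith) (neg_ne_zero.2 q0), fl x q q0]
      simp
    · exact cf.hom r x q h q0
  · obtain ⟨c, c0, k⟩ := lp (x, v) hv
    refine ⟨c, c0, fun ε ε0 => ?_⟩
    obtain ⟨C, k⟩ := k ε ε0
    refine ⟨C, ?_⟩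
    have ct : Tendsto (fun p : V × V => ((x, p.1), (x, p.2))) (𝓝 (v, v)) (𝓝 ((x, v), (x, v))) :=
      Continuous.tendsto' (by fun_prop) _ _ rfl
    filter_upwards [ct.eventually (eventually_nhdsWithin_iff.1 k)] with p hp h1 h2
    obtain ⟨k1, k2⟩ := hp ⟨h1, h2⟩
    have e : ‖((x, p.2) : V × V) - (x, p.1)‖ = ‖p.2 - p.1‖ := by simp [Prod.norm_def]
    have e2 : m.hor (x, p.1) (((x, p.2) : V × V) - (x, p.1)) = 0 := by simp [MF.hor]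
    rw [e, e2, inner_zero_right, sub_zero] at k2
    refine ⟨?_, k2⟩
    simpa [fr] using k1
  · have b := g.bd o o' cf ha
    exact ⟨g.dif.comp (v : V) (by fun_prop : DifferentiableAt ℝ (fun q : V => (x, q)) v), b.1,
      b.2.1, (g.pt o o' cf ha).2⟩

/-- Almost every fibre. -/
theorem fr0_ae {m m' : MF} {φ : V × V → V × V} {a : ℝ} (o : m.OK) (o' : m'.OK)
    (cf : C0F m m' φ) (fl : ∀ x v, v ≠ 0 → φ (x, -v) = ((φ (x, v)).1, -(φ (x, v)).2))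
    (ha : 0 < a) (lp : Lip0 m m' φ a)
    (gd : ∀ᵐ z : V × V, Gd m m' φ a (z.1, ‖z.2‖⁻¹ • z.2)) :
    ∀ᵐ x : V, Fr0 m' (fr φ x) a := by
  filter_upwards [Measure.ae_ae_of_ae_prod gd] with x hx
  exact fr0_of o o' cf fl ha lp x (CY.ae_sph (P := fun b => Gd m m' φ a (x, b))
    (hx.mono fun _ hv _ _ => hv))

end Pool.Agent.MP_3ee8cb_gt.CYF
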